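import Pool.Agent.Q55.KY.Stm

/-! Project KY, jobs PRF, HNT and THE. -/

set_option autoImplicit false

namespace Pool.Agent.Q285.KY

open Pool.Agent.Q55.KY

section
variable {R I X : Type} [AddCommGroup X] {D : Dat R I X}

theorem H_succ (i : I) (p : ℕ → X) (j : ℕ) :
    D.H i p (j + 1) = D.H i p j + D.ct (D.sm i) (p j) := by
  unfold Dat.H
  rw [Finset.sum_range_succ]

theorem H_zero (i : I) (p : ℕ → X) : D.H i p 0 = 0 := by
  unfold Dat.H
  rw [Finset.sum_range_zero]

theorem mn_le (i : I) (N : ℕ) (p : ℕ → X) {j : ℕ} (hj : j ≤ N) : D.mn i N p ≤ D.H i p j := by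
  unfold Dat.mn
  exact Finset.inf'_le _ (Finset.mem_range.2 (Nat.lt_succ_of_le hj))

theorem le_mn (i : I) (N : ℕ) (p : ℕ → X) {x : ℤ} (h : ∀ j, j ≤ N → x ≤ D.H i p j) :
    x ≤ D.mn i N p := by
  unfold Dat.mn
  exact Finset.le_inf' _ _ fun j hj => h j (Nat.lt_succ_iff.1 (Finset.mem_range.1 hj))

theorem mn_att (i : I) (N : ℕ) (p : ℕ → X) : ∃ j, j ≤ N ∧ D.H i p j = D.mn i N p := by
  unfold Dat.mn
  obtain ⟨j, hj, h⟩ := Finset.exists_mem_eq_inf' (s := Finset.range (N + 1)) ⟨0, by simp⟩ (D.H i p)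
  exact ⟨j, Nat.lt_succ_iff.1 (Finset.mem_range.1 hj), h.symm⟩

theorem rf_in (i : I) {a b j : ℕ} (p : ℕ → X) (h1 : a ≤ j) (h2 : j < b) :
    D.rf i a b p j = D.s (D.sm i) (p j) := by
  unfold Dat.rf
  exact if_pos ⟨h1, h2⟩

theorem rf_out (i : I) {a b j : ℕ} (p : ℕ → X) (h : ¬ (a ≤ j ∧ j < b)) :
    D.rf i a b p j = p j := by
  unfold Dat.rf
  exact if_neg h

end

/-- **job PRF** -/
theorem prf : S_Prf := by
  intro R I X _ D hO i N p a b hF
  have h1 : ∀ j, j ≤ a → D.H i (D.rf i a b p) j = D.H i p j := by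
    intro j
    induction j with
    | zero => intro _; rw [H_zero, H_zero]
    | succ j ih =>
      intro hj
      rw [H_succ, H_succ, ih (by omega), rf_out i p (by omega)]
  have h2 : ∀ j, a ≤ j → j ≤ b → D.H i (D.rf i a b p) j = 2 * D.mn i N p - D.H i p j := by
    intro j haj
    induction j, haj using Nat.le_induction with
    | base => intro _; rw [h1 a le_rfl, hF.Ha]; ring
    | succ j haj ih =>
      intro hj
      rw [H_succ, H_succ, ih (by omega), rf_in i p haj (by omega), hO.cts]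
      ring
  have h3 : ∀ j, b ≤ j → D.H i (D.rf i a b p) j = D.H i p j - 2 * N := by
    intro j hbj
    induction j, hbj using Nat.le_induction with
    | base => rw [h2 b hF.ab.le le_rfl, hF.Hb]; ring
    | succ j hbj ih =>
      rw [H_succ, H_succ, ih, rf_out i p (by omega)]
      ring
  refine ⟨h1, h2, h3, ?_⟩
  apply le_antisymm
  · have h4 := mn_le (D := D) i N (D.rf i a b p) hF.bN
    rw [h3 b le_rfl, hF.Hb] at h4
    linarith
  · apply le_mn
    intro j hj
    rcases le_or_gt j a with h | h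
    · rw [h1 j h]
      have := hF.le j hj
      have h5 : (0 : ℤ) ≤ N := Int.natCast_nonneg N
      linarith
    · rcases le_or_gt b j with h' | h'
      · rw [h3 j h']
        have := hF.fin j h' hj
        linarith
      · rw [h2 j h.le h'.le]
        have := hF.mid j h h'
        linarith

/-- **job HNT** -/
theorem hnt : S_Hnt := by
  intro R I X _ _ D _ hC lam N hN p hp i
  obtain ⟨hp1, hp2, hp3⟩ := hp
  have cong : ∀ j, j < N → (N : ℤ) ∣ D.H i p j - (j : ℤ) * D.ct (D.sm i) (p j) := by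
    intro j
    induction j with
    | zero =>
      intro _
      rw [H_zero]
      simp
    | succ j ih =>
      intro hj
      have h1 := ih (by omega)
      have h2 := hC.dvd N (j + 1) _ _ (hp3 j hj) (D.ct (D.sm i))
      have h3 : D.H i p (j + 1) - ((j + 1 : ℕ) : ℤ) * D.ct (D.sm i) (p (j + 1)) =
          (D.H i p j - (j : ℤ) * D.ct (D.sm i) (p j)) + ((j + 1 : ℕ) : ℤ) *
            (D.ct (D.sm i) (p j) - D.ct (D.sm i) (p (j + 1))) := by
        rw [H_succ]
        push_cast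
        ring
      rw [h3]
      exact dvd_add h1 h2
  have top : (N : ℤ) ∣ D.H i p N := by
    obtain ⟨n, rfl⟩ := Nat.exists_eq_succ_of_ne_zero hN.1.ne'
    have h1 := cong n (Nat.lt_succ_self n)
    have h2 : D.H i p (n + 1) = (D.H i p n - (n : ℤ) * D.ct (D.sm i) (p n)) +
        ((n + 1 : ℕ) : ℤ) * D.ct (D.sm i) (p n) := by
      rw [H_succ]
      push_cast
      ring
    show ((n + 1 : ℕ) : ℤ) ∣ D.H i p (n + 1)
    rw [h2]
    exact dvd_add h1 (Dvd.intro _ rfl)
  have loc : ∀ j, 0 < j → j < N → D.ct (D.sm i) (p (j - 1)) ≤ 0 → 0 ≤ D.ct (D.sm i) (p j) →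
      (N : ℤ) ∣ D.H i p j := by
    intro j hj hjN h1 h2
    have h3 := cong j hjN
    have h4 : (N : ℤ) ∣ (j : ℤ) * D.ct (D.sm i) (p j) := by
      rcases h2.eq_or_lt with h | h
      · rw [← h, mul_zero]
        exact dvd_zero _
      · have h5 := hp3 (j - 1) (by omega)
        rw [Nat.sub_add_cancel hj] at h5
        exact hC.int N j i _ _ h5 h h1
    have h5 := dvd_add h3 h4
    rwa [sub_add_cancel] at h5
  refine ⟨cong, top, loc, ?_, ?_, fun j hj => mn_le i N p hj, mn_att i N p⟩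
  · obtain ⟨j, hj, h⟩ := mn_att (D := D) i N p
    rw [← h]
    rcases Nat.eq_zero_or_pos j with rfl | hj0
    · rw [H_zero]
      exact dvd_zero _
    · rcases hj.eq_or_lt with rfl | hjN
      · exact top
      · apply loc j hj0 hjN
        · have h1 := mn_le (D := D) i N p (j := j - 1) (by omega)
          have h2 := H_succ (D := D) i p (j - 1)
          rw [Nat.sub_add_cancel hj0] at h2
          linarith
        · have h1 := mn_le (D := D) i N p (j := j + 1) (by omega)
          have h2 := H_succ (D := D) i p j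
          linarith
  · have h1 := mn_le (D := D) i N p (Nat.zero_le N)
    rwa [H_zero] at h1

section
variable {R I X : Type} [AddCommGroup X] {D : Dat R I X}

theorem eps_xi {l0 : List I} {θ : I → I} {lam : X} {N : ℕ} (h : D.XilF l0 θ lam N) (i : I)
    (p : ℕ → X) : D.eps (θ i) N (Dat.xi (D.act l0) N p) = D.phi i N p := by
  unfold Dat.eps Dat.phi
  rw [h.xm]
  congr 1
  ring

theorem phi_xi {l0 : List I} {θ : I → I} {lam : X} {N : ℕ} (h : D.XilF l0 θ lam N) (i : I)
    (p : ℕ → X) : D.phi (θ i) N (Dat.xi (D.act l0) N p) = D.eps i N p := by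
  unfold Dat.eps Dat.phi
  rw [h.xm, h.xh]
  congr 1
  ring

theorem phi_F {lam : X} {N : ℕ} (hN : 0 < N) (h : D.CryF lam N) {i : I} {p q : ℕ → X}
    (hp : p ∈ D.LS lam N) (hF : D.F i N p q) : D.phi i N q = D.phi i N p - 1 := by
  unfold Dat.phi
  rw [h.mq i p hp q hF, h.hq i p hp q hF]
  have h1 : D.H i p N - 2 * N - (D.mn i N p - N) = (D.H i p N - D.mn i N p) + (-1) * (N : ℤ) := by
    ring
  rw [h1, Int.add_mul_ediv_right _ _ (by exact_mod_cast hN.ne')]
  ring

theorem eps_F {lam : X} {N : ℕ} (hN : 0 < N) (h : D.CryF lam N) {i : I} {p q : ℕ → X}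
    (hp : p ∈ D.LS lam N) (hF : D.F i N p q) : D.eps i N q = D.eps i N p + 1 := by
  unfold Dat.eps
  rw [h.mq i p hp q hF]
  have h1 : -(D.mn i N p - N) = (- D.mn i N p) + 1 * (N : ℤ) := by ring
  rw [h1, Int.add_mul_ediv_right _ _ (by exact_mod_cast hN.ne')]

end

/-- **job THE** -/
theorem the : S_The := by
  intro R I X _ D l0 θ mu lam M N hM hN hcm hcl hxl hxm u u' hcon
  have step : ∀ u u' : (ℕ → X) × (ℕ → X), (u ∈ D.TB mu lam M N ∧ u' ∈ D.TB mu lam M N ∧
      ∃ i, D.TF i M N u u') → D.Con lam mu N M (Dat.xi (D.act l0) N u.2, Dat.xi (D.act l0) M u.1)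
      (Dat.xi (D.act l0) N u'.2, Dat.xi (D.act l0) M u'.1) := by
    rintro u u' ⟨hu, hu', i, hTF⟩
    apply Relation.EqvGen.symm
    apply Relation.EqvGen.rel
    refine ⟨⟨hxl.ls _ hu'.2, hxm.ls _ hu'.1⟩, ⟨hxl.ls _ hu.2, hxm.ls _ hu.1⟩, θ i, ?_⟩
    rcases hTF with ⟨h1, h2, h3⟩ | ⟨h1, h2, h3⟩
    · right
      refine ⟨?_, hxl.xF i _ hu.2 _ h3, ?_⟩
      · show D.phi (θ i) M (Dat.xi (D.act l0) M u'.1) ≤ D.eps (θ i) N (Dat.xi (D.act l0) N u'.2)
        rw [eps_xi hxl, phi_xi hxm, phi_F hN hcl hu.2 h3, h2]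
        omega
      · show Dat.xi (D.act l0) M u.1 = Dat.xi (D.act l0) M u'.1
        rw [h2]
    · left
      refine ⟨?_, ?_, hxm.xF i _ hu.1 _ h2⟩
      · show D.eps (θ i) N (Dat.xi (D.act l0) N u'.2) < D.phi (θ i) M (Dat.xi (D.act l0) M u'.1)
        rw [eps_xi hxl, phi_xi hxm, eps_F hM hcm hu.1 h2, h3]
        omega
      · show Dat.xi (D.act l0) N u.2 = Dat.xi (D.act l0) N u'.2
        rw [h3]
  induction hcon with
  | rel u u' h => exact step u u' h
  | refl u => exact Relation.EqvGen.refl _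
  | symm u u' _ ih => exact Relation.EqvGen.symm _ _ ih
  | trans u u' u'' _ _ ih1 ih2 => exact Relation.EqvGen.trans _ _ _ ih1 ih2

end Pool.Agent.Q285.KY
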